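import Pool.Agent.Helper76.GT.St

/-!
Project GT, module COV: covering of a ball by small balls.
-/

set_option autoImplicit false

namespace Pool.Agent.Helper8.GT

open Pool.Agent.Helper76.GT Filter
open scoped Pointwise

universe u

variable {H : Type u} [Group H] [DecidableEq H]

theorem one_mem_pow {S : Finset H} (hS : Gen S) (m : ℕ) : (1 : H) ∈ S ^ m := by
  induction m with
  | zero => simp
  | succ m ih =>
    rw [pow_succ]
    have := Finset.mul_mem_mul ih hS.one
    rwa [mul_one] at this

theorem inv_mem_pow {S : Finset H} (hS : Gen S) (m : ℕ) : ∀ x ∈ S ^ m, x⁻¹ ∈ S ^ m := by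
  induction m with
  | zero => intro x hx; simpa using hx
  | succ m ih =>
    intro x hx
    rw [pow_succ, Finset.mem_mul] at hx
    obtain ⟨y, hy, s, hs, rfl⟩ := hx
    rw [pow_succ', mul_inv_rev]
    exact Finset.mul_mem_mul (hS.inv s hs) (ih y hy)

/-- the ball around `c` -/
def ball (S : Finset H) (a : ℕ) (c : H) : Finset H := (S ^ a).image (fun s => c * s)

theorem card_ball (S : Finset H) (a : ℕ) (c : H) : (ball S a c).card = (S ^ a).card :=
  Finset.card_image_of_injective _ (mul_right_injective c)

theorem card_le (S : Finset H) (a : ℕ) (F T : Finset H)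
    (hF : (F : Set H).PairwiseDisjoint (ball S a)) (hT : ∀ c ∈ F, ball S a c ⊆ T) :
    F.card * (S ^ a).card ≤ T.card := by
  have h1 : (F.biUnion (ball S a)).card = F.card * (S ^ a).card := by
    rw [Finset.card_biUnion]
    · rw [Finset.sum_congr rfl fun c _ => card_ball S a c, Finset.sum_const, smul_eq_mul]
    · intro x hx y hy hxy
      exact hF hx hy hxy
  rw [← h1]
  exact Finset.card_le_card (Finset.biUnion_subset.mpr hT)

theorem pCOV (H : Type u) [Group H] [DecidableEq H] : COV H := by
  classical
  intro S hS a R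
  let 𝒟 : Finset (Finset H) := (S ^ R).powerset.filter
    fun C => (C : Set H).PairwiseDisjoint (ball S a)
  have hne : 𝒟.Nonempty := ⟨∅, by simp [𝒟]⟩
  obtain ⟨C, hC, hmax⟩ := Finset.exists_max_image 𝒟 Finset.card hne
  rw [Finset.mem_filter, Finset.mem_powerset] at hC
  obtain ⟨hCR, hCd⟩ := hC
  refine ⟨C, hCR, ?_, ?_, ?_⟩
  · intro x hx
    by_contra hcon
    push Not at hcon
    have hxC : x ∉ C := by
      intro h
      have := hcon x h
      rw [inv_mul_cancel] at this
      exact this (one_mem_pow hS _)
    have hmem : insert x C ∈ 𝒟 := by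
      rw [Finset.mem_filter, Finset.mem_powerset]
      refine ⟨Finset.insert_subset hx hCR, ?_⟩
      rw [Finset.coe_insert]
      refine (Set.pairwiseDisjoint_insert_of_notMem (by simpa using hxC)).mpr ⟨hCd, ?_⟩
      intro c hc
      rw [Finset.disjoint_left]
      intro y hy1 hy2
      unfold ball at hy1 hy2
      rw [Finset.mem_image] at hy1 hy2
      obtain ⟨s, hs, rfl⟩ := hy1
      obtain ⟨t, ht, hts⟩ := hy2
      apply hcon c hc
      have e : c⁻¹ * x = t * s⁻¹ := by
        have h2 : x = c * t * s⁻¹ := by rw [hts]; group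
        rw [h2]; group
      rw [e, two_mul, pow_add]
      exact Finset.mul_mem_mul ht (inv_mem_pow hS a s hs)
    have h1 := hmax _ hmem
    rw [Finset.card_insert_of_notMem hxC] at h1
    omega
  · refine card_le S a C (S ^ (R + a)) hCd ?_
    intro c hc y hy
    unfold ball at hy
    rw [Finset.mem_image] at hy
    obtain ⟨s, hs, rfl⟩ := hy
    rw [pow_add]
    exact Finset.mul_mem_mul (hCR hc) hs
  · intro w
    have h1 : (S ^ (7 * a)).card = (ball S (7 * a) w).card := (card_ball S (7 * a) w).symm
    rw [h1]
    refine card_le S a _ _ (hCd.subset ?_) ?_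
    · intro c hc
      exact (Finset.mem_filter.mp hc).1
    · intro c hc y hy
      have h2 := (Finset.mem_filter.mp hc).2
      unfold ball at hy ⊢
      rw [Finset.mem_image] at hy ⊢
      obtain ⟨s, hs, rfl⟩ := hy
      refine ⟨w⁻¹ * c * s, ?_, by group⟩
      rw [show 7 * a = 6 * a + a by ring, pow_add]
      refine Finset.mul_mem_mul ?_ hs
      have h3 := inv_mem_pow hS _ _ h2
      have e : w⁻¹ * c = (c⁻¹ * w)⁻¹ := by group
      rw [e]
      exact h3

end Pool.Agent.Helper8.GT
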